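import Pool.Agent.W2helper22.CU.Stmts

set_option autoImplicit false

open Finset

namespace Pool.Agent.W2helper75.CU

open Pool.Agent.W2helper22.CU

section
variable {K : ℕ} {h : Finset (Fin K) → ℝ}

/-- telescoping with the almost decreasing increments -/
theorem tele {ζ : ℝ}
    (h3 : ∀ J J' : Finset (Fin K), J ⊆ J' → ∀ i, h (insert i J') - h J' ≤ h (insert i J) - h J + ζ)
    (J T : Finset (Fin K)) : h (J ∪ T) - h J ≤ ∑ i ∈ T, (h (insert i J) - h J + ζ) := by
  classical
  induction T using Finset.induction_on with
  | empty => simp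
  | insert a T ha ih =>
    rw [sum_insert ha, union_insert]
    have := h3 J (J ∪ T) subset_union_left a
    linarith

theorem le_card (h0 : h ∅ = 0) (h2 : ∀ J i, h (insert i J) ≤ h J + 1) (J : Finset (Fin K)) :
    h J ≤ J.card := by
  classical
  induction J using Finset.induction_on with
  | empty => simp [h0]
  | insert a T ha ih =>
    rw [card_insert_of_notMem ha]
    push_cast
    have := h2 T a
    linarith

end

theorem p_greedy : P_GREEDY := by
  classical
  intro K k h c ε ζ hc hc1 hε hε1 hζ hζ1 hk hkK h0 h1 h2 h3 huniv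
  have hk1 : (1 : ℝ) ≤ k := by exact_mod_cast hk
  -- elementary inequalities
  have hεc : 0 < ε * c := mul_pos hε hc
  have hK0 : (0 : ℝ) < K := by
    have : (0 : ℝ) < ε * c ^ 2 * K := by linarith
    by_contra hcon
    push Not at hcon
    have h5 : ε * c ^ 2 * K ≤ 0 := mul_nonpos_of_nonneg_of_nonpos (by positivity) hcon
    linarith
  set g : Finset (Fin K) → Fin K → ℝ := fun J i => h (insert i J) - h J with hg
  have g0 : ∀ J i, 0 ≤ g J i := fun J i => by
    have := h1 J i
    simp only [hg]; linarith
  have g1 : ∀ J i, g J i ≤ 1 := fun J i => by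
    have := h2 J i
    simp only [hg]; linarith
  have g3 : ∀ J J' : Finset (Fin K), J ⊆ J' → ∀ i, g J' i ≤ g J i + ζ := h3
  set Ψ : Finset (Fin K) → ℝ := fun J => ∑ i, g J i with hΨ
  have Ψ0 : ∀ J, 0 ≤ Ψ J := fun J => sum_nonneg fun i _ => g0 J i
  have Ψ1 : ∀ J, Ψ J ≤ K := fun J => by
    calc Ψ J ≤ ∑ _i : Fin K, (1 : ℝ) := sum_le_sum fun i _ => g1 J i
      _ = K := by simp
  set δ : ℝ := ε * c * K / 32 with hδ
  have hδ0 : 0 < δ := by rw [hδ]; positivity
  set Q : Finset (Fin K) → Prop := fun J => (J.card : ℝ) * δ ≤ k * (K - Ψ J) with hQ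
  have hne : (univ.filter Q).Nonempty := ⟨∅, by
    rw [mem_filter]
    refine ⟨mem_univ _, ?_⟩
    simp only [hQ, card_empty, Nat.cast_zero, zero_mul]
    have := Ψ1 ∅
    have : 0 ≤ (K : ℝ) - Ψ ∅ := by linarith
    positivity⟩
  obtain ⟨J, hJ, hJmax⟩ := exists_max_image (univ.filter Q) (fun J => J.card) hne
  rw [mem_filter] at hJ
  have hQJ : (J.card : ℝ) * δ ≤ k * (K - Ψ J) := hJ.2
  -- `J` is small
  have hJcard : (J.card : ℝ) ≤ c * K / 8 := by
    have e1 : (J.card : ℝ) * δ ≤ k * K := by
      refine hQJ.trans ?_
      apply mul_le_mul_of_nonneg_left _ (by positivity)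
      have := Ψ0 J
      linarith
    have e2 : (k : ℝ) * K ≤ (c * K / 8) * δ := by
      rw [hδ]
      have : (k : ℝ) * K * 264 ≤ ε * c ^ 2 * K * K := by nlinarith
      have e3 : (c * K / 8) * (ε * c * K / 32) = ε * c ^ 2 * K * K / 256 := by ring
      rw [e3]
      have : 0 < ε * c ^ 2 * K * K := by positivity
      linarith
    have := e1.trans e2
    exact le_of_mul_le_mul_right this hδ0
  set L := univ.filter (fun i => c / 8 ≤ g J i) with hL
  have hζK : (K : ℝ) * ζ ≤ ε * c * K / 32 := by nlinarith
  have hLcard : 7 * c * K / 32 ≤ (L.card : ℝ) := by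
    have e1 := tele (h := h) h3 J univ
    have e0 : J ∪ univ = univ := by ext; simp
    rw [e0] at e1
    have e2 : ∑ i, (h (insert i J) - h J + ζ) ≤ L.card + c * K / 8 + K * ζ := by
      have e3 : ∑ i, (h (insert i J) - h J + ζ) = ∑ i, g J i + K * ζ := by
        rw [sum_add_distrib]
        simp [hg]
      have e4 : ∑ i, g J i ≤ ∑ i, ((if i ∈ L then (1:ℝ) else 0) + c / 8) := by
        apply sum_le_sum
        intro i _
        by_cases hi : i ∈ L
        · rw [if_pos hi]
          have := g1 J i
          linarith
        · rw [if_neg hi]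
          have : ¬ c / 8 ≤ g J i := fun hh => hi (by rw [hL, mem_filter]; exact ⟨mem_univ _, hh⟩)
          push Not at this
          linarith
      have e5 : ∑ i, ((if i ∈ L then (1:ℝ) else 0) + c / 8) = L.card + c * K / 8 := by
        rw [sum_add_distrib]
        simp
        ring
      rw [e3]
      linarith
    have e6 := le_card h0 h2 J
    have e7 : ε * c * K / 32 ≤ c * K / 32 := by
      have : ε * (c * K) ≤ 1 * (c * K) := mul_le_mul_of_nonneg_right hε1 (by positivity)
      linarith
    linarith
  -- the greedy choice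
  set R : Finset (Fin K) → Prop := fun W => W ⊆ L ∧ W.card ≤ k ∧
    ∑ i ∈ W, g J i - ε * W.card ≤ h (J ∪ W) - h J with hR
  have hne2 : (univ.filter R).Nonempty := ⟨∅, by
    rw [mem_filter]
    refine ⟨mem_univ _, empty_subset _, by simp, ?_⟩
    simp⟩
  obtain ⟨W, hW, hWmax⟩ := exists_max_image (univ.filter R) (fun W => W.card) hne2
  rw [mem_filter] at hW
  obtain ⟨-, hWL, hWk, hWsum⟩ := hW
  have hdis : Disjoint J W := by
    rw [disjoint_left]
    intro i hi hiW
    have h4 := hWL hiW
    rw [hL, mem_filter] at h4
    have h5 : g J i = 0 := by simp only [hg]; rw [insert_eq_of_mem hi]; ring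
    rw [h5] at h4
    linarith [h4.2]
  rcases hWk.lt_or_eq with hlt | heq
  · exfalso
    set U := J ∪ W with hU
    -- stuck
    have stuck : ∀ i ∈ L \ W, g U i ≤ g J i - ε := by
      intro i hi
      rw [mem_sdiff] at hi
      by_contra hcon
      push Not at hcon
      have hRi : R (insert i W) := by
        refine ⟨?_, ?_, ?_⟩
        · intro x hx
          rw [mem_insert] at hx
          rcases hx with rfl | hx
          · exact hi.1
          · exact hWL hx
        · rw [card_insert_of_notMem hi.2]; omega
        · rw [card_insert_of_notMem hi.2, sum_insert hi.2, union_insert]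
          have : g U i = h (insert i (J ∪ W)) - h (J ∪ W) := rfl
          push_cast
          linarith
      have := hWmax (insert i W) (by rw [mem_filter]; exact ⟨mem_univ _, hRi⟩)
      rw [card_insert_of_notMem hi.2] at this
      omega
    have hdrop : Ψ U ≤ Ψ J - δ := by
      have e1 : Ψ U ≤ ∑ i, (g J i + ζ - (if i ∈ L \ W then ε else 0)) := by
        apply sum_le_sum
        intro i _
        by_cases hi : i ∈ L \ W
        · rw [if_pos hi]
          have := stuck i hi
          linarith
        · rw [if_neg hi]
          have := g3 J U subset_union_left i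
          linarith
      have e2 : ∑ i, (g J i + ζ - (if i ∈ L \ W then ε else 0)) =
          Ψ J + K * ζ - ε * (L \ W).card := by
        rw [sum_sub_distrib, sum_add_distrib]
        have e3 : ∑ i, (if i ∈ L \ W then ε else 0) = ε * (L \ W).card := by
          rw [Finset.sum_ite_mem, univ_inter, sum_const, nsmul_eq_mul, mul_comm]
        rw [e3]
        simp [hΨ]
      have e4 : (L.card : ℝ) ≤ (L \ W).card + W.card := by
        have : L.card ≤ (L \ W).card + W.card := by
          have h6 := card_sdiff_add_card_inter L W
          have h7 : (L ∩ W).card ≤ W.card := card_le_card inter_subset_right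
          omega
        exact_mod_cast this
      have e5 : (W.card : ℝ) ≤ k := by exact_mod_cast hWk
      have e6 : (k : ℝ) ≤ c * K / 264 := by
        have : ε * c ^ 2 * K ≤ c * K := by
          have h8 : ε * c ≤ 1 := by nlinarith
          have h9 : (ε * c) * (c * K) ≤ 1 * (c * K) := mul_le_mul_of_nonneg_right h8 (by positivity)
          calc ε * c ^ 2 * K = (ε * c) * (c * K) := by ring
            _ ≤ c * K := by linarith
        linarith
      have e7 : 7 * c * K / 32 - c * K / 264 ≤ ((L \ W).card : ℝ) := by linarith
      have e8 : ε * (7 * c * K / 32 - c * K / 264) ≤ ε * ((L \ W).card : ℝ) :=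
        mul_le_mul_of_nonneg_left e7 hε.le
      have e9 : 0 < ε * c * K := by positivity
      rw [hδ]
      nlinarith
    have hQU : Q U := by
      simp only [hQ]
      have e1 : (U.card : ℝ) ≤ J.card + k := by
        have : U.card ≤ J.card + W.card := card_union_le J W
        have : U.card ≤ J.card + k := by omega
        exact_mod_cast this
      calc (U.card : ℝ) * δ ≤ (J.card + k) * δ := mul_le_mul_of_nonneg_right e1 hδ0.le
        _ = J.card * δ + k * δ := by ring
        _ ≤ k * (K - Ψ J) + k * δ := by linarith
        _ = k * (K - (Ψ J - δ)) := by ring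
        _ ≤ k * (K - Ψ U) := by
            apply mul_le_mul_of_nonneg_left _ (by positivity)
            linarith
    have hcard := hJmax U (by rw [mem_filter]; exact ⟨mem_univ _, hQU⟩)
    have h8 : U.card = J.card + W.card := card_union_of_disjoint hdis
    have h9 : W.card = 0 := by
      have : U.card ≤ J.card := hcard
      omega
    rw [card_eq_zero] at h9
    have h10 : U = J := by rw [hU, h9, union_empty]
    rw [h10] at hdrop
    linarith
  · refine ⟨J, W, hdis, heq, ?_, ?_⟩
    · intro i hi
      have := hWL hi
      rw [hL, mem_filter] at this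
      exact this.2
    · rw [heq] at hWsum
      exact hWsum

end Pool.Agent.W2helper75.CU
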