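import Pool.Agent.W2helper22.CU.Stmts

set_option autoImplicit false

open Finset

namespace Pool.Agent.W2helper75.CU

open Pool.Agent.W2helper22.CU

/-- at least the share `K ^ (-K)` of the colourings colours `z i` with `i` for all `i` -/
theorem many_colourings {K N : ℕ} (z : Fin K → Fin N) (hz : Function.Injective z) :
    K ^ N ≤ K ^ K * (univ.filter fun κ : Fin N → Fin K => ∀ i, κ (z i) = i).card := by
  classical
  have h1 : (univ : Finset (Fin N → Fin K)).card ≤
      ((univ : Finset (Fin K → Fin K)) ×ˢ
        (univ.filter fun κ : Fin N → Fin K => ∀ i, κ (z i) = i)).card := by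
    apply card_le_card_of_injOn (fun κ => (κ ∘ z, Function.extend z id κ))
    · intro κ _
      rw [mem_coe, mem_product, mem_filter]
      refine ⟨mem_univ _, mem_univ _, fun i => ?_⟩
      change Function.extend z id κ (z i) = i
      rw [hz.extend_apply]
      rfl
    · intro κ _ κ' _ he
      simp only [Prod.mk.injEq] at he
      funext v
      by_cases hv : ∃ i, z i = v
      · obtain ⟨i, rfl⟩ := hv
        exact congrFun he.1 i
      · have := congrFun he.2 v
        rwa [Function.extend_apply' _ _ _ hv, Function.extend_apply' _ _ _ hv] at this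
  rw [card_product] at h1
  simpa using h1

theorem p_host : P_HOST := by
  classical
  intro K N H hK
  set A : Finset (Finset (Fin N)) := univ.filter fun s => H.IsNClique K s with hA
  have hcl : cliques H K = A.card := by
    unfold cliques
    rw [← Set.ncard_coe_finset]
    congr 1
    ext s
    simp [hA]
  rw [hcl]
  haveI : Nonempty (Fin K) := ⟨⟨0, hK⟩⟩
  rcases Nat.eq_zero_or_pos N with rfl | hN
  · refine ⟨fun i => i.elim0, ∅, ?_, by simp⟩
    have : A = ∅ := by
      rw [hA, filter_eq_empty_iff]
      intro s _ hs
      have h1 := hs.card_eq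
      have h2 : s = ∅ := by
        ext x
        exact x.elim0
      rw [h2, card_empty] at h1
      omega
    rw [this]
    simp
  haveI : Nonempty (Fin N) := ⟨⟨0, hN⟩⟩
  have hex : ∀ s : Finset (Fin N), ∃ z : Fin K → Fin N, s ∈ A →
      Function.Injective z ∧ univ.image z = s := by
    intro s
    by_cases hs : s ∈ A
    · rw [hA, mem_filter] at hs
      have hc := hs.2.card_eq
      refine ⟨s.orderEmbOfFin hc, fun _ => ⟨(s.orderEmbOfFin hc).injective, ?_⟩⟩
      ext x
      rw [mem_image]
      constructor
      · rintro ⟨i, _, rfl⟩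
        exact orderEmbOfFin_mem s hc i
      · intro hx
        have : x ∈ Set.range (s.orderEmbOfFin hc) := by
          rw [range_orderEmbOfFin]; exact hx
        obtain ⟨i, hi⟩ := this
        exact ⟨i, mem_univ _, hi⟩
    · exact ⟨fun _ => Classical.arbitrary _, fun h => absurd h hs⟩
  choose z hz using hex
  -- the colourful cliques
  set F : (Fin N → Fin K) → Finset (Finset (Fin N)) := fun κ =>
    A.filter fun s => ∀ i, κ (z s i) = i with hF
  have hsum : K ^ N * A.card ≤ K ^ K * ∑ κ : Fin N → Fin K, (F κ).card := by
    have e1 : ∑ κ : Fin N → Fin K, (F κ).card =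
        ∑ s ∈ A, (univ.filter fun κ : Fin N → Fin K => ∀ i, κ (z s i) = i).card := by
      simp only [hF, card_filter]
      rw [sum_comm]
    rw [e1, mul_sum]
    calc K ^ N * A.card = ∑ _s ∈ A, K ^ N := by rw [sum_const, smul_eq_mul, mul_comm]
      _ ≤ _ := sum_le_sum fun s hs => many_colourings (z s) (hz s hs).1
  obtain ⟨κ, hκ⟩ : ∃ κ : Fin N → Fin K, A.card ≤ K ^ K * (F κ).card := by
    by_contra hcon
    push Not at hcon
    have h1 : ∑ κ : Fin N → Fin K, K ^ K * (F κ).card < ∑ _κ : Fin N → Fin K, A.card :=
      sum_lt_sum_of_nonempty univ_nonempty fun κ _ => hcon κ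
    rw [← mul_sum, sum_const, card_univ, Fintype.card_fun, Fintype.card_fin, Fintype.card_fin,
      smul_eq_mul] at h1
    omega
  refine ⟨κ, (F κ).image z, ?_, ?_⟩
  · rw [card_image_of_injOn]
    · exact hκ
    · intro s hs t ht hst
      rw [mem_coe, hF, mem_filter] at hs ht
      rw [← (hz s hs.1).2, ← (hz t ht.1).2, hst]
  · intro w hw
    rw [mem_image] at hw
    obtain ⟨s, hs, rfl⟩ := hw
    rw [hF, mem_filter] at hs
    refine ⟨hs.2, fun i j hij => ?_⟩
    have hcl : H.IsNClique K s := by
      have := hs.1
      rw [hA, mem_filter] at this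
      exact this.2
    have hmem : ∀ i, z s i ∈ s := fun i => by
      have : z s i ∈ univ.image (z s) := mem_image_of_mem _ (mem_univ _)
      rwa [(hz s hs.1).2] at this
    exact hcl.isClique (hmem i) (hmem j) fun he => hij ((hz s hs.1).1 he)

end Pool.Agent.W2helper75.CU
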